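import Pool.Agent.N229.PG.Stm

/-! Project PG (helper229), leaf T: the sum over the blocks (by helper439). -/

set_option autoImplicit false

namespace PG

theorem t439_bb_pos (m : ℕ) : 0 < bb m := by
  unfold bb; positivity

theorem t439_bb_add (m k : ℕ) : bb (m + k) = bb m * (1 / 2 : ℝ) ^ k := by
  unfold bb
  rw [← pow_add]
  congr 1
  omega

theorem t439_few (t : ℝ) (ht : 0 < t) : ∃ F : Finset ℕ, F.card ≤ 3 ∧
    ∀ m, m ∉ F → ¬ (t / 4 < bb m ∧ bb m < 2 * t) := by
  classical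
  by_cases h : ∃ m, t / 4 < bb m ∧ bb m < 2 * t
  · let m0 := Nat.find h
    have h0 := Nat.find_spec h
    refine ⟨{m0, m0 + 1, m0 + 2}, Finset.card_le_three, ?_⟩
    intro m hm hh
    have h1 : m0 ≤ m := Nat.find_min' h hh
    simp only [Finset.mem_insert, Finset.mem_singleton, not_or] at hm
    have h2 : m0 + 3 ≤ m := by omega
    obtain ⟨k, rfl⟩ := Nat.exists_eq_add_of_le h2
    have h3 : bb (m0 + 3 + k) ≤ bb m0 / 8 := by
      rw [t439_bb_add, t439_bb_add]
      have h4 : (1 / 2 : ℝ) ^ k ≤ 1 := pow_le_one₀ (by norm_num) (by norm_num)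
      have h5 := t439_bb_pos m0
      nlinarith
    have h6 : bb m0 < 2 * t := h0.2
    linarith [hh.1]
  · refine ⟨∅, by simp, ?_⟩
    intro m _ hh
    exact h ⟨m, hh⟩

theorem t439_ratio (α : ℝ) (h0 : 0 < α) (m : ℕ) :
    bb m ^ ((1 - α) / α) / bb m ^ (1 / α) = (bb m)⁻¹ := by
  rw [← Real.rpow_sub (t439_bb_pos m), ← Real.rpow_neg_one]
  congr 1
  field_simp
  ring

/-- the bound of a block which is valid for all `t` -/
theorem t439_blockA (hB : StmB) (α : ℝ) (h0 : 0 < α) (N : ℕ → ℕ) (C : ℝ)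
    (hN : ∀ m, 1 ≤ N m)
    (hC : ∀ m, (N m : ℝ) * bb m ^ ((1 - α) / α) * (1 + Real.log (N m)) ≤ C) (t : ℝ) (m : ℕ) :
    ∑ j : Fin (N m), TT α N t ⟨m, j⟩ ≤ (2 + 2 * C) / bb m := by
  have hb := t439_bb_pos m
  have hNm : (0 : ℝ) < N m := by exact_mod_cast hN m
  set b := bb m with hbdef
  have hh : 0 < b / N m := div_pos hb hNm
  have hro : 0 < b ^ (1 / α) := Real.rpow_pos_of_pos hb _
  have hsg : 0 < b ^ ((1 - α) / α) := Real.rpow_pos_of_pos hb _
  have h1 := hB (N m) (b / N m) (b ^ (1 / α)) ((t - b) / (b / N m)) (hN m) hh hro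
  have h2 : ∑ j : Fin (N m), TT α N t ⟨m, j⟩ = b ^ ((1 - α) / α) *
      ∑ j ∈ Finset.range (N m),
        1 / (b ^ (1 / α) + b / N m * |(t - b) / (b / N m) - (j : ℝ)|) := by
    rw [← Fin.sum_univ_eq_sum_range
      (fun j => 1 / (b ^ (1 / α) + b / N m * |(t - b) / (b / N m) - (j : ℝ)|)), Finset.mul_sum]
    refine Finset.sum_congr rfl fun j _ => ?_
    have h3 : b / N m * |(t - b) / (b / N m) - ((j : ℕ) : ℝ)| = |t - tt N ⟨m, j⟩| := by
      rw [← abs_of_pos hh, ← abs_mul, abs_of_pos hh]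
      congr 1
      unfold tt
      simp only [← hbdef]
      field_simp
      ring
    rw [h3]
    unfold TT
    simp only [← hbdef]
    rw [mul_one_div]
  rw [h2]
  have h4 : b ^ ((1 - α) / α) / b ^ (1 / α) = b⁻¹ := t439_ratio α h0 m
  have h5 : b ^ ((1 - α) / α) * (2 / b ^ (1 / α) + 2 / (b / N m) * (1 + Real.log (N m))) ≤
      (2 + 2 * C) / b := by
    have h6 : b ^ ((1 - α) / α) * (2 / b ^ (1 / α) + 2 / (b / N m) * (1 + Real.log (N m))) =
        2 * (b ^ ((1 - α) / α) / b ^ (1 / α)) +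
          2 * ((N m : ℝ) * b ^ ((1 - α) / α) * (1 + Real.log (N m))) / b := by
      field_simp
    rw [h6, h4]
    have h7 := hC m
    rw [← hbdef] at h7
    have h8 : 2 * b⁻¹ = 2 / b := by rw [div_eq_mul_inv]
    rw [h8, ← add_div]
    apply div_le_div_of_nonneg_right _ hb.le
    linarith
  exact (mul_le_mul_of_nonneg_left h1 hsg.le).trans h5

/-- the bound of a block far from `t` -/
theorem t439_blockB (α : ℝ) (N : ℕ → ℕ) (hN : ∀ m, 1 ≤ N m) (t : ℝ) (ht : 0 < t) (m : ℕ)
    (h : 4 * bb m ≤ t ∨ 2 * t ≤ bb m) :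
    ∑ j : Fin (N m), TT α N t ⟨m, j⟩ ≤ 2 * ((N m : ℝ) * bb m ^ ((1 - α) / α)) / t := by
  have hb := t439_bb_pos m
  have hNm : (0 : ℝ) < N m := by exact_mod_cast hN m
  have hsg : 0 < bb m ^ ((1 - α) / α) := Real.rpow_pos_of_pos hb _
  have hro : 0 < bb m ^ (1 / α) := Real.rpow_pos_of_pos hb _
  have h1 : ∀ j : Fin (N m), TT α N t ⟨m, j⟩ ≤ bb m ^ ((1 - α) / α) / (t / 2) := by
    intro j
    unfold TT
    apply div_le_div_of_nonneg_left hsg.le (by positivity)
    have hj : (((j : Fin (N m)) : ℕ) : ℝ) / (N m : ℝ) ≤ 1 := by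
      rw [div_le_one hNm]
      exact_mod_cast j.2.le
    have hj0 : 0 ≤ (((j : Fin (N m)) : ℕ) : ℝ) / (N m : ℝ) := by positivity
    have h2 : bb m ≤ tt N ⟨m, j⟩ := by
      unfold tt
      simp only
      nlinarith
    have h3 : tt N ⟨m, j⟩ ≤ 2 * bb m := by
      unfold tt
      simp only
      nlinarith
    simp only
    rcases h with h | h
    · have h4 : t - tt N ⟨m, j⟩ ≤ |t - tt N ⟨m, j⟩| := le_abs_self _
      linarith
    · have h4 : -(t - tt N ⟨m, j⟩) ≤ |t - tt N ⟨m, j⟩| := neg_le_abs _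
      linarith
  calc ∑ j : Fin (N m), TT α N t ⟨m, j⟩ ≤ ∑ _j : Fin (N m), bb m ^ ((1 - α) / α) / (t / 2) :=
        Finset.sum_le_sum fun j _ => h1 j
    _ = 2 * ((N m : ℝ) * bb m ^ ((1 - α) / α)) / t := by
        rw [Finset.sum_const, Finset.card_univ, Fintype.card_fin, nsmul_eq_mul]
        field_simp

theorem leaf_T : StmB → StmT := by
  classical
  intro hB α h0 h1 N C hN hsum hC
  have hC0 : 0 ≤ C := by
    refine le_trans ?_ (hC 0)
    have hb := t439_bb_pos 0
    have hsg : 0 < bb 0 ^ ((1 - α) / α) := Real.rpow_pos_of_pos hb _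
    have hl : 0 ≤ Real.log (N 0) := Real.log_natCast_nonneg _
    positivity
  refine ⟨2 * (∑' m, (N m : ℝ) * bb m ^ ((1 - α) / α)) + 12 * (2 + 2 * C), ?_⟩
  intro t ht
  have hnn : ∀ p, 0 ≤ TT α N t p := by
    intro p
    unfold TT
    have hb := t439_bb_pos p.1
    have hsg : 0 < bb p.1 ^ ((1 - α) / α) := Real.rpow_pos_of_pos hb _
    have hro : 0 < bb p.1 ^ (1 / α) := Real.rpow_pos_of_pos hb _
    positivity
  obtain ⟨F, hF3, hF⟩ := t439_few t ht
  set D : ℝ := (2 + 2 * C) * 4 / t with hD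
  have hD0 : 0 ≤ D := by positivity
  let I : ℕ → ℝ := fun m => ∑ j : Fin (N m), TT α N t ⟨m, j⟩
  let G : ℕ → ℝ := fun m => (2 / t) * ((N m : ℝ) * bb m ^ ((1 - α) / α))
  let K : ℕ → ℝ := fun m => if m ∈ F then D else 0
  have hI0 : ∀ m, 0 ≤ I m := fun m => Finset.sum_nonneg fun j _ => hnn _
  have hG0 : ∀ m, 0 ≤ G m := by
    intro m
    have hb := t439_bb_pos m
    have hsg : 0 < bb m ^ ((1 - α) / α) := Real.rpow_pos_of_pos hb _
    simp only [G]
    positivity
  have hK0 : ∀ m, 0 ≤ K m := by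
    intro m
    simp only [K]
    split_ifs
    · exact hD0
    · exact le_refl _
  have hIle : ∀ m, I m ≤ G m + K m := by
    intro m
    by_cases hfar : 4 * bb m ≤ t ∨ 2 * t ≤ bb m
    · have h2 := t439_blockB α N hN t ht m hfar
      have h3 : 2 * ((N m : ℝ) * bb m ^ ((1 - α) / α)) / t = G m := by
        simp only [G]
        ring
      have h4 := hK0 m
      change ∑ j : Fin (N m), TT α N t ⟨m, j⟩ ≤ _
      linarith
    · rw [not_or, not_le, not_le] at hfar
      have hm : m ∈ F := by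
        by_contra hm
        exact hF m hm ⟨by linarith [hfar.1], hfar.2⟩
      have h2 := t439_blockA hB α h0 N C hN hC t m
      have h3 : K m = D := by
        simp only [K]
        rw [if_pos hm]
      have h5 : (2 + 2 * C) / bb m ≤ D := by
        rw [hD, mul_div_assoc]
        rw [div_eq_mul_inv]
        apply mul_le_mul_of_nonneg_left _ (by positivity)
        rw [inv_le_comm₀ (t439_bb_pos m) (by positivity), inv_div]
        linarith [hfar.1]
      have h4 := hG0 m
      change ∑ j : Fin (N m), TT α N t ⟨m, j⟩ ≤ _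
      linarith
  have hGs : Summable G := hsum.mul_left _
  have hKs : Summable K := summable_of_ne_finset_zero (s := F) (by
    intro m hm
    simp only [K]
    rw [if_neg hm])
  have hIs : Summable I := Summable.of_nonneg_of_le hI0 hIle (hGs.add hKs)
  have hin : ∀ m, (∑' j : Fin (N m), TT α N t ⟨m, j⟩) = I m := fun m => tsum_fintype _
  have hS : Summable (TT α N t) := by
    rw [summable_sigma_of_nonneg hnn]
    refine ⟨fun m => (hasSum_fintype _).summable, ?_⟩
    simp only [hin]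
    exact hIs
  refine ⟨hS, ?_⟩
  rw [hS.tsum_sigma]
  simp only [hin]
  calc ∑' m, I m ≤ ∑' m, (G m + K m) := hIs.tsum_le_tsum hIle (hGs.add hKs)
    _ = ∑' m, G m + ∑' m, K m := hGs.tsum_add hKs
    _ ≤ (2 / t) * (∑' m, (N m : ℝ) * bb m ^ ((1 - α) / α)) + 3 * D := by
        have e1 : ∑' m, G m = (2 / t) * (∑' m, (N m : ℝ) * bb m ^ ((1 - α) / α)) := tsum_mul_left
        have e2 : ∑' m, K m = F.card * D := by
          rw [tsum_eq_sum (s := F) (by
            intro m hm
            simp only [K]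
            rw [if_neg hm])]
          rw [Finset.sum_congr rfl (fun m hm => by
            simp only [K]
            rw [if_pos hm]), Finset.sum_const, nsmul_eq_mul]
        have e3 : (F.card : ℝ) ≤ 3 := by exact_mod_cast hF3
        rw [e1, e2]
        have := mul_le_mul_of_nonneg_right e3 hD0
        linarith
    _ = _ := by
        rw [hD]
        ring

end PG
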